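import Pool.Agent.H60MC.Fun
import Pool.Agent.H914R2.LinDual

/-!
# Independence of the Chow–Künneth filtration and algebraic cohomology
-/

open CategoryTheory CategoryTheory.Limits AlgebraicGeometry
open Pool.Agent.H914 Pool.Agent.H914.VarClass Pool.Agent.H914.VarClass.Obj Pool.Agent.R903

universe u v w

namespace Pool.Agent.H60MC

variable {k : Type u} [Field k] {𝒱 : VarClass k} {C : ChowTheory.{u, v} 𝒱}
  {W : WeilTheory.{u, v, w} C} {X Y : 𝒱.Obj}

/-! ### moving a homologically trivial idempotent to another degree -/

/-- The decomposition in which the idempotent `e` is moved from degree `c` to degree `t`. -/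
noncomputable def moveCK (π : ℕ → C.CH (X.prod X)) (e : C.CH (X.prod X)) (c t : ℕ) (j : ℕ) :
    C.CH (X.prod X) :=
  π j + ((if j = t then (1 : ℚ) else 0) - (if j = c then (1 : ℚ) else 0)) • e

lemma move {π : ℕ → C.CH (X.prod X)} (h : W.IsCK X π) {e : C.CH (X.prod X)}
    (he : e ∈ C.gr (X.prod X) X.dim) (h0 : W.act e = 0) (hee : C.comp e e = e) {c t : ℕ}
    (hct : c ≠ t) (h1 : C.comp (π c) e = e) (h2 : C.comp e (π c) = e) (hc : c ≤ 2 * X.dim)
    (ht : t ≤ 2 * X.dim) : W.IsCK X (moveCK π e c t) := by
  have h3 : ∀ i, C.comp (π i) e = (if i = c then (1 : ℚ) else 0) • e := by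
    intro i
    conv_lhs => rw [← h1]
    rw [← C.comp_assoc, h.comp_eq]
    split_ifs with hi
    · rw [hi, h1, one_smul]
    · rw [C.zero_comp, zero_smul]
  have h4 : ∀ j, C.comp e (π j) = (if j = c then (1 : ℚ) else 0) • e := by
    intro j
    conv_lhs => rw [← h2]
    rw [C.comp_assoc, h.comp_eq]
    by_cases hj : c = j
    · rw [if_pos hj, if_pos hj.symm, h2, one_smul]
    · rw [if_neg hj, if_neg (Ne.symm hj), C.comp_zero, zero_smul]
  have key : ∀ i j, C.comp (moveCK π e c t i) (moveCK π e c t j) =
      if i = j then moveCK π e c t i else 0 := by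
    intro i j
    rw [moveCK, moveCK, C.comp_add, C.add_comp, C.add_comp, C.comp_smul, C.smul_comp,
      C.comp_smul, C.smul_comp, h3, h4, hee, h.comp_eq]
    simp only [smul_smul]
    by_cases hij : i = j
    · subst hij
      have h5 : ((if i = t then (1 : ℚ) else 0) - if i = c then 1 else 0) *
          (if i = c then 1 else 0) + (((if i = t then (1 : ℚ) else 0) - if i = c then 1 else 0) *
            (if i = c then 1 else 0) + ((if i = t then (1 : ℚ) else 0) - if i = c then 1 else 0) *
              ((if i = t then (1 : ℚ) else 0) - if i = c then 1 else 0)) =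
          (if i = t then (1 : ℚ) else 0) - if i = c then 1 else 0 := by
        by_cases hic : i = c
        · have : i ≠ t := by omega
          rw [if_pos hic, if_neg this]; norm_num
        · rw [if_neg hic]
          split_ifs <;> norm_num
      rw [if_pos rfl, if_pos rfl, add_assoc, ← add_smul, ← add_smul, h5]
    · rw [if_neg hij, if_neg hij, zero_add, ← add_smul, ← add_smul]
      have : ((if i = t then (1 : ℚ) else 0) - if i = c then 1 else 0) *
          (if j = c then 1 else 0) + (((if j = t then (1 : ℚ) else 0) - if j = c then 1 else 0) *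
            (if i = c then 1 else 0) + ((if j = t then (1 : ℚ) else 0) - if j = c then 1 else 0) *
              ((if i = t then (1 : ℚ) else 0) - if i = c then 1 else 0)) = 0 := by
        by_cases hic : i = c
        · have hit : i ≠ t := by omega
          have hjc : j ≠ c := by omega
          rw [if_pos hic, if_neg hit, if_neg hjc]; ring
        · by_cases hjc : j = c
          · have hjt : j ≠ t := by omega
            rw [if_neg hic, if_pos hjc, if_neg hjt]; ring
          · by_cases hit : i = t
            · have hjt : j ≠ t := by omega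
              rw [if_neg hic, if_neg hjc, if_neg hjt]; ring
            · rw [if_neg hic, if_neg hjc, if_neg hit]; ring
      rw [this, zero_smul]
  refine ⟨fun j => ?_, fun j => ?_, fun i j hij => ?_, ?_, fun j => ?_⟩
  · exact Submodule.add_mem _ (h.mem j) (Submodule.smul_mem _ _ he)
  · rw [key, if_pos rfl]
  · rw [key, if_neg hij]
  · unfold moveCK
    rw [Finset.sum_add_distrib, h.sum, ← Finset.sum_smul, Finset.sum_sub_distrib,
      Finset.sum_ite_eq', Finset.sum_ite_eq', if_pos (Finset.mem_range.2 (by omega)),
      if_pos (Finset.mem_range.2 (by omega)), sub_self, zero_smul, add_zero]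
  · intro l a ha
    rw [moveCK, W.act_add, W.act_smul, h0, smul_zero, add_zero]
    exact h.proj j l a ha

/-- **Independence of `F^k CH^i(X)`, for one `k`, implies that the homologically trivial idempotents
of `h^c(X)` act as zero on `CH^i(X)`.** -/
theorem phantom {i l : ℕ} (hl : l ≤ 2 * i) (hil : 2 * i < 2 * X.dim + l) (hI : W.Indep X i l)
    {π : ℕ → C.CH (X.prod X)} (h : W.IsCK X π) {e : C.CH (X.prod X)}
    (he : e ∈ C.gr (X.prod X) X.dim) (h0 : W.act e = 0)
    (hee : C.comp e e = e) {c : ℕ} (h1 : C.comp (π c) e = e) (h2 : C.comp e (π c) = e)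
    {x : C.CH X} (hx : x ∈ C.gr X i) : C.act e x = 0 := by
  by_cases hi : X.dim < i
  · rw [C.gr_eq_bot X i hi, Submodule.mem_bot] at hx
    rw [hx, map_zero]
  by_cases hc : 2 * X.dim < c
  · rw [← h1, h.eq_zero hc, C.zero_comp, C.act_zero, LinearMap.zero_apply]
  set y := C.act e x with hy
  have hyg : y ∈ C.gr X i := C.act_mem he hx rfl
  have hey : C.act e y = y := by rw [hy, ← C.act_comp, hee]
  have hπy : ∀ b, C.act (π b) y = if b = c then y else 0 := by
    intro b
    have : y = C.act (π c) y := by
      conv_lhs => rw [hy, ← h2, C.act_comp]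
    rw [this, h.act_act]
    split_ifs with hb
    · rw [hb]
    · rfl
  have hmove : ∀ t b, C.act (moveCK π e c t b) y = if b = t then y else 0 := by
    intro t b
    rw [moveCK, C.act_add, C.act_smul, LinearMap.add_apply, LinearMap.smul_apply, hπy, hey,
      sub_smul]
    by_cases hbt : b = t <;> by_cases hbc : b = c <;> simp [hbt, hbc]
  by_cases hci : c + l ≤ 2 * i
  · -- move to a higher degree
    have hCK := move h he h0 hee (c := c) (t := 2 * i + 1 - l) (by omega) h1 h2 (by omega)
      (by omega)
    have hmem : y ∈ C.ckFil π i l := by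
      rw [WeilTheory.mem_ckFil h]
      refine ⟨hyg, fun b hb => ?_⟩
      rw [hπy, if_neg (by omega)]
    rw [hI π _ h hCK, WeilTheory.mem_ckFil hCK] at hmem
    have := hmem.2 (2 * i + 1 - l) (by omega)
    rwa [hmove, if_pos rfl] at this
  · -- move to degree zero
    have hCK := move h he h0 hee (c := c) (t := 0) (by omega) h1 h2 (by omega) (by omega)
    have hmem : y ∈ C.ckFil (moveCK π e c 0) i l := by
      rw [WeilTheory.mem_ckFil hCK]
      refine ⟨hyg, fun b hb => ?_⟩
      rw [hmove, if_neg (by omega)]
    rw [← hI π _ h hCK, WeilTheory.mem_ckFil h] at hmem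
    have := hmem.2 c (by omega)
    rwa [hπy, if_pos rfl] at this

end Pool.Agent.H60MC
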