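import Pool.Agent.R903.MurreDefs

/-!
# Algebraic cohomology and direct summands: definitions
-/

open CategoryTheory CategoryTheory.Limits AlgebraicGeometry
open Pool.Agent.H914 Pool.Agent.H914.VarClass Pool.Agent.H914.VarClass.Obj Pool.Agent.R903

universe u v w

namespace Pool.Agent.H60MC

variable {k : Type u} [Field k] {𝒱 : VarClass k} {C : ChowTheory.{u, v} 𝒱} {X Y : 𝒱.Obj}

/-- The classes of the algebraic cycles in `H^c(X)` (with rational coefficients); there are none for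
odd `c`. -/
def cycleClasses (W : WeilTheory.{u, v, w} C) (X : 𝒱.Obj) (c : ℕ) : Set (W.H X) :=
  {b | ∃ p, 2 * p = c ∧ ∃ z ∈ C.gr X p, W.cl X z = b}

/-- `H^c(X)` is spanned by the classes of algebraic cycles (with rational coefficients); for odd `c`
this means that `H^c(X) = 0`. -/
def SpannedByCycles (W : WeilTheory.{u, v, w} C) (X : 𝒱.Obj) (c : ℕ) : Prop :=
  ∀ a ∈ W.gr X c, a ∈ Submodule.span W.K (cycleClasses W X c)

/-- `π_c` kills `CH^i(X)` if `c ≠ 2i`, and it kills the homologically trivial cycles of `CH^i(X)` if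
`c = 2i`. -/
def KillsChow (W : WeilTheory.{u, v, w} C) (X : 𝒱.Obj) (π : ℕ → C.CH (X.prod X)) (c i : ℕ) :
    Prop :=
  ∀ x ∈ C.gr X i, (2 * i ≠ c ∨ W.cl X x = 0) → C.act (π c) x = 0

/-- `F^m CH^i(X) = F^(m+1) CH^i(X)` if `m = 2i - c ≥ 1`, and `F^1 CH^i(X)` is the kernel of
`F^0 CH^i(X) → H^(2i)(X)` if `c = 2i`. -/
def TrivialStep (W : WeilTheory.{u, v, w} C) (X : 𝒱.Obj) (π : ℕ → C.CH (X.prod X)) (c i : ℕ) :
    Prop :=
  (∀ m, 1 ≤ m → c + m = 2 * i → C.ckFil π i m = C.ckFil π i (m + 1)) ∧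
    (c = 2 * i → ∀ x, x ∈ C.ckFil π i 1 ↔ x ∈ C.ckFil π i 0 ∧ W.cl X x = 0)

/-- `σ ∈ CH^m(X × Y)` is a morphism from the motive `(X, p)` to the motive `(Y, q)` (up to a twist):
`q ∘ σ ∘ p = σ`. -/
def IsMorphism (C : ChowTheory.{u, v} 𝒱) {X Y : 𝒱.Obj} (p : C.CH (X.prod X)) (q : C.CH (Y.prod Y))
    (m : ℕ) (σ : C.CH (X.prod Y)) : Prop :=
  σ ∈ C.gr (X.prod Y) m ∧ C.comp (C.comp p σ) q = σ

/-- The operator `T` is the identity on the subspace `S`. -/
def IsOneOn {K : Type w} [Field K] {V : Type w} [AddCommGroup V] [Module K V] (S : Submodule K V)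
    (T : V →ₗ[K] V) : Prop :=
  ∀ a ∈ S, T a = a

/-- `q ∈ CH^(dim Y)(Y × Y)` is idempotent, and the only endomorphism of the motive `(Y, q)` which acts
as zero on the cohomology is zero. -/
def EndDetected (W : WeilTheory.{u, v, w} C) (Y : 𝒱.Obj) (q : C.CH (Y.prod Y)) : Prop :=
  q ∈ C.gr (Y.prod Y) Y.dim ∧ C.comp q q = q ∧
    ∀ γ, IsMorphism C q q Y.dim γ → IsZeroMap (W.act γ) → γ = 0

/-- `H^c(X)` is a direct summand of the cohomology of the motive `(Y, q)`, by correspondences: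
there are `α ∈ CH^m(X × Y)` and `β ∈ CH^n(Y × X)` such that `β ∘ q ∘ α` acts as the identity on
`H^c(X)`. -/
def CohSummand (W : WeilTheory.{u, v, w} C) (X : 𝒱.Obj) (c : ℕ) (q : C.CH (Y.prod Y))
    (m n : ℕ) : Prop :=
  ∃ α ∈ C.gr (X.prod Y) m, ∃ β ∈ C.gr (Y.prod X) n,
    IsOneOn (W.gr X c) (W.act (C.comp (C.comp α q) β))

/-- The correspondences `γ` and `δ` from `X` to `X` act in the same way on `CH^i(X)`. -/
def ActAlike (C : ChowTheory.{u, v} 𝒱) (X : 𝒱.Obj) (i : ℕ) (γ δ : C.CH (X.prod X)) : Prop :=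
  ∀ x ∈ C.gr X i, C.act γ x = C.act δ x

/-- `p CH^i(X)` is a direct summand of `q CH^*(Y)` by correspondences: there are morphisms
`σ : (X, p) → (Y, q)` in `CH^m(X × Y)` and `τ : (Y, q) → (X, p)` in `CH^n(Y × X)` such that `τ ∘ σ` acts
on `CH^i(X)` as `p`. -/
def ChowSummand (C : ChowTheory.{u, v} 𝒱) {X Y : 𝒱.Obj} (p : C.CH (X.prod X)) (i : ℕ)
    (q : C.CH (Y.prod Y)) (m n : ℕ) : Prop :=
  ∃ σ τ, IsMorphism C p q m σ ∧ IsMorphism C q p n τ ∧ ActAlike C X i (C.comp σ τ) p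

end Pool.Agent.H60MC
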