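import Pool.Agent.H60MC.Dual

/-!
# Independence of the Chow–Künneth filtration in the algebraic degrees
-/

open CategoryTheory CategoryTheory.Limits AlgebraicGeometry
open Pool.Agent.H914 Pool.Agent.H914.VarClass Pool.Agent.H914.VarClass.Obj Pool.Agent.R903

universe u v w

namespace Pool.Agent.H60MC

variable {k : Type u} [Field k] {𝒱 : VarClass k} {C : ChowTheory.{u, v} 𝒱}
  {W : WeilTheory.{u, v, w} C} {X Y : 𝒱.Obj}

/-- the correspondence `∑ y_i × z_i` -/
noncomputable def algProj (C : ChowTheory.{u, v} 𝒱) {X : 𝒱.Obj} {m : ℕ} (z y : Fin m → C.CH X) :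
    C.CH (X.prod X) :=
  ∑ i, C.ext (y i) (z i)

section

variable {m p : ℕ} {z y : Fin m → C.CH X}

lemma algProj_mem (hp : p ≤ X.dim) (hz : ∀ i, z i ∈ C.gr X p) (hy : ∀ i, y i ∈ C.gr X (X.dim - p)) :
    algProj C z y ∈ C.gr (X.prod X) X.dim := by
  refine Submodule.sum_mem _ fun i _ => ?_
  have := C.ext_mem (hy i) (hz i)
  rwa [Nat.sub_add_cancel hp] at this

lemma act_algProj (x : C.CH X) : C.act (algProj C z y) x = ∑ i, C.deg X (x * y i) • z i := by
  rw [algProj, WeilTheory.act_sum_apply]
  exact Finset.sum_congr rfl fun i _ => C.act_ext _ _ _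

lemma act_algProjH (hz : ∀ i, z i ∈ C.gr X p) (hy : ∀ i, y i ∈ C.gr X (X.dim - p)) (a : W.H X) :
    W.act (algProj C z y) a = ∑ i, W.tr X (a * W.cl X (y i)) • W.cl X (z i) := by
  rw [algProj, W.act_sum, LinearMap.sum_apply]
  exact Finset.sum_congr rfl fun i _ => act_extH (hy i) (hz i) a

lemma algProj_proj (hp : p ≤ X.dim) (hz : ∀ i, z i ∈ C.gr X p)
    (hy : ∀ i, y i ∈ C.gr X (X.dim - p))
    (hzy : ∀ i j, C.deg X (z i * y j) = if i = j then 1 else 0)
    (hs : ∀ a ∈ W.gr X (2 * p), a ∈ Submodule.span W.K (Set.range fun i => W.cl X (z i))) :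
    IsProjector (W.gr X) (2 * p) (W.act (algProj C z y)) := by
  intro l a ha
  split_ifs with hl
  · subst hl
    have h1 := hs a ha
    clear ha
    induction h1 using Submodule.span_induction with
    | mem b hb =>
      obtain ⟨j, rfl⟩ := hb
      dsimp only
      rw [act_algProjH hz hy, Finset.sum_eq_single j]
      · rw [← deg_cast, hzy, if_pos rfl, Rat.cast_one, one_smul]
      · intro i _ hij
        rw [← deg_cast, hzy, if_neg (Ne.symm hij), Rat.cast_zero, zero_smul]
      · intro h; exact absurd (Finset.mem_univ _) h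
    | zero => rw [map_zero]
    | add a b _ _ ha hb => rw [map_add, ha, hb]
    | smul t a _ ha => rw [map_smul, ha]
  · rw [act_algProjH hz hy]
    refine Finset.sum_eq_zero fun i _ => ?_
    rw [W.tr_eq_zero (W.mul_mem ha (W.cl_mem (hy i))) (by omega), zero_smul]

lemma deg_act_proj {π : ℕ → C.CH (X.prod X)} (h : W.IsCK X π) {x w : C.CH X}
    (hx : x ∈ C.gr X p) : C.deg X (C.act (π (2 * p)) x * w) = C.deg X (x * w) := by
  have h1 : (C.deg X (C.act (π (2 * p)) x * w) : W.K) = (C.deg X (x * w) : W.K) := by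
    rw [deg_cast, deg_cast, W.cl_act, h.proj _ _ _ (W.cl_mem hx), if_pos rfl]
  exact_mod_cast h1

/-- The algebraic projector and the projector of the decomposition. -/
lemma sandwich {π : ℕ → C.CH (X.prod X)} (h : W.IsCK X π) (hz : ∀ i, z i ∈ C.gr X p)
    (hzy : ∀ i j, C.deg X (z i * y j) = if i = j then 1 else 0) :
    C.comp (C.comp (algProj C z y) (π (2 * p))) (algProj C z y) = algProj C z y := by
  conv_lhs => rw [algProj, C.sum_comp, C.sum_comp]
  conv_rhs => rw [algProj]
  refine Finset.sum_congr rfl fun i _ => ?_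
  rw [comp_ext_right, C.comp_sum, Finset.sum_eq_single i]
  · rw [comp_ext_right, C.act_ext, deg_act_proj h (hz i), hzy, if_pos rfl, one_smul]
  · intro j _ hji
    rw [comp_ext_right, C.act_ext, deg_act_proj h (hz i), hzy, if_neg (Ne.symm hji), zero_smul,
      ext_zero]
  · intro hi; exact absurd (Finset.mem_univ _) hi

end

/-- **Independence of `F^l CH^i(X)`, for one `l`, implies that `π c` kills the homologically trivial
cycles in `CH^i(X)` if `H^c(X)` and `H^(2d-c)(X)` are spanned by algebraic cycles.** -/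
theorem alg_degree {i l : ℕ} (hl : l ≤ 2 * i) (hil : 2 * i < 2 * X.dim + l) (hI : W.Indep X i l)
    {π : ℕ → C.CH (X.prod X)} (h : W.IsCK X π)
    {c : ℕ} (h1 : SpannedByCycles W X c) (h2 : SpannedByCycles W X (2 * X.dim - c))
    {x : C.CH X} (hx : x ∈ C.gr X i) (h0 : W.cl X (C.act (π c) x) = 0) :
    C.act (π c) x = 0 := by
  by_cases hc : 2 * X.dim < c
  · rw [h.eq_zero hc, C.act_zero, LinearMap.zero_apply]
  rcases Nat.even_or_odd c with hev | hodd
  · obtain ⟨p, hp⟩ := hev
    obtain rfl : c = 2 * p := by omega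
    obtain ⟨m, z, y, hz, hy, hzy, hs⟩ := dual_pair (W := W) (X := X) (p := p) (by omega) h1 h2
    set g0 := algProj C z y with hg0
    have hg0m : g0 ∈ C.gr (X.prod X) X.dim := algProj_mem (by omega) hz hy
    have hsw : C.comp (C.comp g0 (π (2 * p))) g0 = g0 := sandwich h hz hzy
    set g := C.comp (C.comp (π (2 * p)) g0) (π (2 * p)) with hg
    have hgm : g ∈ C.gr (X.prod X) X.dim :=
      C.comp_mem (C.comp_mem (h.mem _) hg0m rfl) (h.mem _) rfl
    have hπg : C.comp (π (2 * p)) g = g := by rw [hg, ← C.comp_assoc, ← C.comp_assoc, h.idem]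
    have hgπ : C.comp g (π (2 * p)) = g := by rw [hg, C.comp_assoc, h.idem]
    have hgg : C.comp g g = g := by
      conv_lhs => rw [hg]
      rw [C.comp_assoc, C.comp_assoc, hπg]
      rw [hg, ← C.comp_assoc, ← C.comp_assoc, ← C.comp_assoc]
      conv_lhs => rw [C.comp_assoc (π (2 * p)), C.comp_assoc (π (2 * p)), hsw]
    have hgW : W.act g = W.act (π (2 * p)) := by
      have hpr := algProj_proj (W := W) (by omega) hz hy hzy hs
      apply gr_ext (W.isInternal X)
      intro j a ha
      rw [hg, W.act_comp _ (h.mem _), W.act_comp _ hg0m, h.proj _ j a ha]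
      split_ifs with hl
      · subst hl
        rw [← hg0] at hpr
        rw [hpr _ a ha, if_pos rfl, h.proj _ _ a ha, if_pos rfl]
      · rw [map_zero, map_zero]
    set e := π (2 * p) - g with he
    have hem : e ∈ C.gr (X.prod X) X.dim := Submodule.sub_mem _ (h.mem _) hgm
    have heW : W.act e = 0 := by rw [he, W.act_sub, hgW, sub_self]
    have hπe : C.comp (π (2 * p)) e = e := by rw [he, comp_sub, h.idem, hπg]
    have heπ : C.comp e (π (2 * p)) = e := by rw [he, sub_comp, h.idem, hgπ]
    have hee : C.comp e e = e := by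
      conv_lhs => rw [he]
      rw [sub_comp, ← he, hπe, he, comp_sub, hgπ, hgg, sub_self, sub_zero]
    have key := phantom hl hil hI h hem heW hee hπe heπ hx
    rw [he, C.act_sub, LinearMap.sub_apply, sub_eq_zero] at key
    rw [key, hg, C.act_comp, C.act_comp, act_algProj, map_sum]
    refine Finset.sum_eq_zero fun j _ => ?_
    have h3 : C.deg X (C.act (π (2 * p)) x * y j) = 0 := by
      have : (C.deg X (C.act (π (2 * p)) x * y j) : W.K) = 0 := by
        rw [deg_cast, h0, zero_mul, map_zero]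
      exact_mod_cast this
    rw [h3, zero_smul, map_zero]
  · have hW : W.act (π c) = 0 := by
      apply gr_ext (W.isInternal X)
      intro l a ha
      rw [h.proj c l a ha, LinearMap.zero_apply]
      split_ifs with hl
      · subst hl
        have h3 := h1 a ha
        have h4 : cycleClasses W X l = ∅ := by
          ext b
          simp only [cycleClasses, Set.mem_ofPred_eq, Set.mem_empty_iff_false, iff_false]
          rintro ⟨p, hp, -⟩
          obtain ⟨q, hq⟩ := hodd
          omega
        rw [h4, Submodule.span_empty, Submodule.mem_bot] at h3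
        exact h3
      · rfl
    exact phantom hl hil hI h (h.mem c) hW (h.idem c) (h.idem c) (h.idem c) hx

/-- the same, with the two cases -/
theorem alg_degree' {i l : ℕ} (hl : l ≤ 2 * i) (hil : 2 * i < 2 * X.dim + l) (hI : W.Indep X i l)
    {π : ℕ → C.CH (X.prod X)} (h : W.IsCK X π)
    {c : ℕ} (h1 : SpannedByCycles W X c) (h2 : SpannedByCycles W X (2 * X.dim - c))
    {x : C.CH X} (hx : x ∈ C.gr X i) (h0 : 2 * i ≠ c ∨ W.cl X x = 0) : C.act (π c) x = 0 := by
  refine alg_degree hl hil hI h h1 h2 hx ?_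
  rw [W.cl_act, h.proj c _ _ (W.cl_mem hx)]
  split_ifs with hc
  · exact h0.resolve_left (not_not.2 hc)
  · rfl

/-! ### varieties whose cohomology is spanned by algebraic cycles -/

/-- If `CH^i(X)` injects into the cohomology, then `π b` acts as zero on it for `b ≠ 2i`. -/
lemma act_eq_zero_of_injective {i : ℕ} (hinj : ∀ x ∈ C.gr X i, W.cl X x = 0 → x = 0)
    {π : ℕ → C.CH (X.prod X)} (h : W.IsCK X π) {b : ℕ} (hb : 2 * i ≠ b) {x : C.CH X}
    (hx : x ∈ C.gr X i) : C.act (π b) x = 0 := by
  refine hinj _ (C.act_mem (h.mem b) hx rfl) ?_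
  rw [W.cl_act, h.proj b _ _ (W.cl_mem hx), if_neg hb]

/-- Injectivity of the cycle map implies independence. -/
lemma indep_of_injective {i : ℕ} (hinj : ∀ x ∈ C.gr X i, W.cl X x = 0 → x = 0) (l : ℕ) :
    W.Indep X i l := by
  have key : ∀ π : ℕ → C.CH (X.prod X), W.IsCK X π → ∀ x, x ∈ C.ckFil π i l ↔
      x ∈ C.gr X i ∧ (0 < l → x = 0) := by
    intro π h x
    rw [WeilTheory.mem_ckFil h]
    constructor
    · rintro ⟨hx, h1⟩
      refine ⟨hx, fun hl => ?_⟩
      rw [← h.sum_act x]
      refine Finset.sum_eq_zero fun b _ => ?_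
      by_cases hb : 2 * i = b
      · exact h1 b (by omega)
      · exact act_eq_zero_of_injective hinj h hb hx
    · rintro ⟨hx, h1⟩
      refine ⟨hx, fun b hb => ?_⟩
      rcases Nat.eq_zero_or_pos l with hl | hl
      · exact act_eq_zero_of_injective hinj h (by omega) hx
      · rw [h1 hl, map_zero]
  intro π π' h h'
  ext x
  rw [key π h, key π' h']

/-- the Chow–Künneth decomposition given by dual families -/
lemma exists_ck (h : ∀ c ≤ 2 * X.dim, SpannedByCycles W X c) : W.HasCK X := by
  classical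
  have h1 : ∀ p : ℕ, ∃ (ρ : C.CH (X.prod X)), ρ ∈ C.gr (X.prod X) X.dim ∧
      (p ≤ X.dim → ∃ (m : ℕ) (z y : Fin m → C.CH X), (∀ i, z i ∈ C.gr X p) ∧
        (∀ i, y i ∈ C.gr X (X.dim - p)) ∧
        (∀ i j, C.deg X (z i * y j) = if i = j then 1 else 0) ∧
        (∀ a ∈ W.gr X (2 * p), a ∈ Submodule.span W.K (Set.range fun i => W.cl X (z i))) ∧
        ρ = algProj C z y) := by
    intro p
    by_cases hp : p ≤ X.dim
    · obtain ⟨m, z, y, hz, hy, hzy, hs⟩ := dual_pair (W := W) hp (h _ (by omega)) (h _ (by omega))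
      exact ⟨_, algProj_mem hp hz hy, fun _ => ⟨m, z, y, hz, hy, hzy, hs, rfl⟩⟩
    · exact ⟨0, Submodule.zero_mem _, fun h => absurd h hp⟩
  choose ρ hρm hρ using h1
  have hρρ : ∀ p q, p ≤ X.dim → q ≤ X.dim → C.comp (ρ p) (ρ q) = if p = q then ρ p else 0 := by
    intro p q hp hq
    obtain ⟨m, z, y, hz, hy, hzy, hs, hρp⟩ := hρ p hp
    obtain ⟨m', z', y', hz', hy', hzy', hs', hρq⟩ := hρ q hq
    split_ifs with hpq
    · subst hpq
      rw [hρp]
      conv_lhs => rw [algProj, C.sum_comp]
      conv_rhs => rw [algProj]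
      refine Finset.sum_congr rfl fun i _ => ?_
      rw [C.comp_sum, Finset.sum_eq_single i]
      · rw [comp_ext_right, C.act_ext, hzy, if_pos rfl, one_smul]
      · intro j _ hji
        rw [comp_ext_right, C.act_ext, hzy, if_neg (Ne.symm hji), zero_smul, ext_zero]
      · intro hi; exact absurd (Finset.mem_univ _) hi
    · rw [hρp, hρq, algProj, algProj, C.sum_comp]
      refine Finset.sum_eq_zero fun i _ => ?_
      rw [C.comp_sum]
      refine Finset.sum_eq_zero fun j _ => ?_
      have : C.deg X (z i * y' j) = 0 := by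
        have : (C.deg X (z i * y' j) : W.K) = 0 := by
          rw [deg_cast, W.tr_eq_zero (W.mul_mem (W.cl_mem (hz i)) (W.cl_mem (hy' j))) (by omega)]
        exact_mod_cast this
      rw [comp_ext_right, C.act_ext, this, zero_smul, ext_zero]
  have hρW : ∀ p, p ≤ X.dim → IsProjector (W.gr X) (2 * p) (W.act (ρ p)) := by
    intro p hp
    obtain ⟨m, z, y, hz, hy, hzy, hs, hρp⟩ := hρ p hp
    rw [hρp]
    exact algProj_proj hp hz hy hzy hs
  set S : C.CH (X.prod X) := ∑ p ∈ Finset.Icc 1 X.dim, ρ p with hS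
  have hSm : S ∈ C.gr (X.prod X) X.dim := Submodule.sum_mem _ fun p _ => hρm p
  have hρS : ∀ p, 1 ≤ p → p ≤ X.dim → C.comp (ρ p) S = ρ p := by
    intro p hp1 hp
    rw [hS, C.comp_sum, Finset.sum_eq_single p]
    · rw [hρρ p p hp hp, if_pos rfl]
    · intro q hq hqp
      rw [hρρ p q hp (Finset.mem_Icc.1 hq).2, if_neg (Ne.symm hqp)]
    · intro hnot; exact absurd (Finset.mem_Icc.2 ⟨hp1, hp⟩) hnot
  have hSρ : ∀ p, 1 ≤ p → p ≤ X.dim → C.comp S (ρ p) = ρ p := by
    intro p hp1 hp
    rw [hS, C.sum_comp, Finset.sum_eq_single p]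
    · rw [hρρ p p hp hp, if_pos rfl]
    · intro q hq hqp
      rw [hρρ q p (Finset.mem_Icc.1 hq).2 hp, if_neg hqp]
    · intro hnot; exact absurd (Finset.mem_Icc.2 ⟨hp1, hp⟩) hnot
  have hSS : C.comp S S = S := by
    conv_lhs => rw [hS, C.sum_comp]
    conv_rhs => rw [hS]
    refine Finset.sum_congr rfl fun p hp => ?_
    exact hρS p (Finset.mem_Icc.1 hp).1 (Finset.mem_Icc.1 hp).2
  set π : ℕ → C.CH (X.prod X) := fun c =>
    if c = 0 then C.diagC X - S else if Even c ∧ c ≤ 2 * X.dim then ρ (c / 2) else 0 with hπ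
  have hπ0 : π 0 = C.diagC X - S := by rw [hπ]; simp
  have hπpos : ∀ p, 1 ≤ p → p ≤ X.dim → π (2 * p) = ρ p := by
    intro p hp1 hp
    rw [hπ]
    dsimp only
    rw [if_neg (by omega), if_pos ⟨even_two_mul p, by omega⟩, Nat.mul_div_cancel_left _ (by norm_num)]
  have hcases : ∀ c, c = 0 ∨ (∃ p, c = 2 * p ∧ 1 ≤ p ∧ p ≤ X.dim) ∨ π c = 0 := by
    intro c
    by_cases hc : c = 0
    · exact Or.inl hc
    · by_cases hc2 : Even c ∧ c ≤ 2 * X.dim
      · obtain ⟨⟨p, hp⟩, hc3⟩ := hc2
        exact Or.inr (Or.inl ⟨p, by omega, by omega, by omega⟩)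
      · refine Or.inr (Or.inr ?_)
        rw [hπ]
        dsimp only
        rw [if_neg hc, if_neg hc2]
  have hdd : C.comp (C.diagC X - S) (C.diagC X - S) = C.diagC X - S := by
    rw [comp_sub, sub_comp, sub_comp, hSS, C.comp_diagC, C.comp_diagC, C.diagC_comp, sub_self,
      sub_zero]
  have hdρ : ∀ p, 1 ≤ p → p ≤ X.dim → C.comp (C.diagC X - S) (ρ p) = 0 := by
    intro p hp1 hp
    rw [sub_comp, hSρ p hp1 hp, C.diagC_comp, sub_self]
  have hρd : ∀ p, 1 ≤ p → p ≤ X.dim → C.comp (ρ p) (C.diagC X - S) = 0 := by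
    intro p hp1 hp
    rw [comp_sub, hρS p hp1 hp, C.comp_diagC, sub_self]
  refine ⟨π, ⟨fun c => ?_, fun c => ?_, fun c c' hcc' => ?_, ?_, fun c => ?_⟩⟩
  · rcases hcases c with rfl | ⟨p, rfl, hp1, hp⟩ | h0
    · rw [hπ0]; exact Submodule.sub_mem _ (C.diagC_mem X) hSm
    · rw [hπpos p hp1 hp]; exact hρm p
    · rw [h0]; exact Submodule.zero_mem _
  · rcases hcases c with rfl | ⟨p, rfl, hp1, hp⟩ | h0
    · rw [hπ0, hdd]
    · rw [hπpos p hp1 hp, hρρ p p hp hp, if_pos rfl]
    · rw [h0, C.comp_zero]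
  · rcases hcases c with rfl | ⟨p, rfl, hp1, hp⟩ | h0
    · rcases hcases c' with rfl | ⟨q, rfl, hq1, hq⟩ | h0'
      · exact absurd rfl hcc'
      · rw [hπ0, hπpos q hq1 hq, hdρ q hq1 hq]
      · rw [h0', C.comp_zero]
    · rcases hcases c' with rfl | ⟨q, rfl, hq1, hq⟩ | h0'
      · rw [hπ0, hπpos p hp1 hp, hρd p hp1 hp]
      · rw [hπpos p hp1 hp, hπpos q hq1 hq, hρρ p q hp hq, if_neg (by omega)]
      · rw [h0', C.comp_zero]
    · rw [h0, C.zero_comp]
  · -- the sum
    have h2 : ∑ c ∈ Finset.range (2 * X.dim + 1), π c = π 0 + ∑ p ∈ Finset.Icc 1 X.dim, π (2 * p) := by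
      have h3 : ∑ c ∈ Finset.range (2 * X.dim + 1), π c =
          ∑ c ∈ insert 0 ((Finset.Icc 1 X.dim).image fun p => 2 * p), π c := by
        refine (Finset.sum_subset ?_ ?_).symm
        · intro c hc
          rw [Finset.mem_insert, Finset.mem_image] at hc
          rw [Finset.mem_range]
          rcases hc with rfl | ⟨p, hp, rfl⟩
          · omega
          · have := (Finset.mem_Icc.1 hp).2
            omega
        · intro c _ hc
          rw [Finset.mem_insert, Finset.mem_image] at hc
          rcases hcases c with rfl | ⟨p, rfl, hp1, hp⟩ | h0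
          · exact absurd (Or.inl rfl) hc
          · exact absurd (Or.inr ⟨p, Finset.mem_Icc.2 ⟨hp1, hp⟩, rfl⟩) hc
          · exact h0
      rw [h3, Finset.sum_insert, Finset.sum_image]
      · intro a _ b _ hab
        have : 2 * a = 2 * b := hab
        omega
      · rw [Finset.mem_image]
        rintro ⟨p, hp, hp0⟩
        have := (Finset.mem_Icc.1 hp).1
        omega
    rw [h2, hπ0]
    have h4 : ∑ p ∈ Finset.Icc 1 X.dim, π (2 * p) = S :=
      Finset.sum_congr rfl fun p hp => hπpos p (Finset.mem_Icc.1 hp).1 (Finset.mem_Icc.1 hp).2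
    rw [h4, sub_add_cancel]
  · -- the action on the cohomology
    have hodd : ∀ j, ¬ Even j → ∀ a ∈ W.gr X j, a = 0 := by
      intro j hj a ha
      by_cases hj2 : j ≤ 2 * X.dim
      · have h3 := h j hj2 a ha
        have h4 : cycleClasses W X j = ∅ := by
          ext b
          simp only [cycleClasses, Set.mem_ofPred_eq, Set.mem_empty_iff_false, iff_false]
          rintro ⟨p, hp, -⟩
          exact hj ⟨p, by omega⟩
        rwa [h4, Submodule.span_empty, Submodule.mem_bot] at h3
      · rw [W.gr_eq_bot X j (by omega), Submodule.mem_bot] at ha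
        exact ha
    have hSW : ∀ j, ∀ a ∈ W.gr X j, W.act S a = if j = 0 then 0 else a := by
      intro j a ha
      rw [hS, W.act_sum, LinearMap.sum_apply]
      split_ifs with hj
      · refine Finset.sum_eq_zero fun p hp => ?_
        rw [hρW p (Finset.mem_Icc.1 hp).2 j a ha, if_neg]
        have := (Finset.mem_Icc.1 hp).1
        omega
      · by_cases hev : Even j
        · obtain ⟨q, hq⟩ := hev
          by_cases hqd : q ≤ X.dim
          · rw [Finset.sum_eq_single q]
            · rw [hρW q hqd j a ha, if_pos (by omega)]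
            · intro p hp hpq
              rw [hρW p (Finset.mem_Icc.1 hp).2 j a ha, if_neg (by omega)]
            · intro hnot
              exact absurd (Finset.mem_Icc.2 ⟨by omega, hqd⟩) hnot
          · rw [W.gr_eq_bot X j (by omega), Submodule.mem_bot] at ha
            rw [ha]
            exact Finset.sum_eq_zero fun p _ => map_zero _
        · rw [hodd j hev a ha]
          exact Finset.sum_eq_zero fun p _ => map_zero _
    intro j a ha
    rcases hcases c with rfl | ⟨p, rfl, hp1, hp⟩ | h0
    · rw [hπ0, W.act_sub, LinearMap.sub_apply, hSW j a ha, W.act_diagC]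
      split_ifs with hj
      · rw [sub_zero]
      · rw [sub_self]
    · rw [hπpos p hp1 hp, hρW p hp j a ha]
    · rw [h0, W.act_zero, LinearMap.zero_apply]
      split_ifs with hj
      · subst hj
        by_contra hne
        by_cases hev : Even j
        · obtain ⟨q, hq⟩ := hev
          have hj2 : j ≤ 2 * X.dim := by
            by_contra hj2
            rw [W.gr_eq_bot X j (by omega), Submodule.mem_bot] at ha
            exact hne ha.symm
          have hjq : j = 2 * q := by omega
          by_cases hq0 : q = 0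
          · -- `π 0 = 0`: then `Δ = S`, and `H^0 = 0`
            subst hq0
            have h5 : j = 0 := by omega
            subst h5
            apply hne
            have h6 := hSW 0 a ha
            rw [if_pos rfl] at h6
            rw [hπ0] at h0
            have h7 : S = C.diagC X := (sub_eq_zero.1 h0).symm
            rw [h7, W.act_diagC] at h6
            exact h6.symm
          · have h6 := hρW q (by omega) j a ha
            rw [if_pos hjq, ← hπpos q (by omega) (by omega), ← hjq, h0, W.act_zero,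
              LinearMap.zero_apply] at h6
            exact hne h6
        · exact hne (hodd j hev a ha).symm
      · rfl

/-- **Varieties with algebraic cohomology.** -/
theorem indep_iff (h : ∀ c ≤ 2 * X.dim, SpannedByCycles W X c) {i l : ℕ} (hl : l ≤ 2 * i)
    (hil : 2 * i < 2 * X.dim + l) :
    W.Indep X i l ↔ ∀ x ∈ C.gr X i, W.cl X x = 0 → x = 0 := by
  refine ⟨fun hI x hx h0 => ?_, fun hinj => indep_of_injective hinj l⟩
  obtain ⟨π, hπ⟩ := exists_ck h
  rw [← hπ.sum_act x]
  refine Finset.sum_eq_zero fun c hc => ?_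
  exact alg_degree' hl hil hI hπ (h c (by rw [Finset.mem_range] at hc; omega))
    (h _ (by omega)) hx (Or.inr h0)

end Pool.Agent.H60MC
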