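import Pool.Agent.H60MC.Alg
import Pool.Agent.H60MC.Defs

/-!
# Dual families of algebraic classes
-/

open CategoryTheory CategoryTheory.Limits AlgebraicGeometry
open Pool.Agent.H914 Pool.Agent.H914.VarClass Pool.Agent.H914.VarClass.Obj Pool.Agent.R903

universe u v w

namespace Pool.Agent.H60MC

variable {k : Type u} [Field k] {𝒱 : VarClass k} {C : ChowTheory.{u, v} 𝒱}
  {W : WeilTheory.{u, v, w} C} {X Y : 𝒱.Obj}

/-- A rational matrix with trivial left kernel has a right inverse. -/
lemma exists_right_inverse {r s : ℕ} (M : Matrix (Fin r) (Fin s) ℚ)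
    (h : ∀ v : Fin r → ℚ, Matrix.vecMul v M = 0 → v = 0) :
    ∃ N : Matrix (Fin s) (Fin r) ℚ, M * N = 1 := by
  classical
  have hinj : LinearMap.ker (Matrix.vecMulLinear M) = ⊥ := by
    rw [LinearMap.ker_eq_bot']
    intro v hv
    exact h v hv
  obtain ⟨g, hg⟩ := (Matrix.vecMulLinear M).exists_leftInverse_of_injective hinj
  refine ⟨Matrix.of (fun j i => g (Pi.single j 1) i), ?_⟩
  ext i i'
  rw [Matrix.mul_apply]
  have h1 := congrArg (fun F => F (Pi.single i 1) i') hg
  simp only [LinearMap.comp_apply, Matrix.vecMulLinear_apply, Matrix.single_one_vecMul,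
    LinearMap.id_apply] at h1
  have h2 : M.row i = ∑ j, M i j • (Pi.single j (1 : ℚ) : Fin s → ℚ) := by
    ext j
    rw [Finset.sum_apply, Finset.sum_eq_single j]
    · simp [Matrix.row]
    · intro j' _ hj'
      simp [Ne.symm hj']
    · intro h0; exact absurd (Finset.mem_univ j) h0
  rw [h2, map_sum, Finset.sum_apply] at h1
  simp only [map_smul, Pi.smul_apply, smul_eq_mul] at h1
  rw [Matrix.one_apply]
  simp only [Matrix.of_apply]
  rw [h1, Pi.single_apply]
  simp only [eq_comm]

lemma cl_sum {ι : Type*} (s : Finset ι) (f : ι → C.CH X) :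
    W.cl X (∑ i ∈ s, f i) = ∑ i ∈ s, W.cl X (f i) := map_sum _ _ _

/-- the degree, in cohomology -/
lemma deg_cast (x y : C.CH X) : (C.deg X (x * y) : W.K) = W.tr X (W.cl X x * W.cl X y) := by
  rw [← W.tr_cl, W.cl_mul]

/-- A class which is orthogonal to a spanning family in the complementary degree is zero. -/
lemma eq_zero_of_orth {q : ℕ} {a : W.H X} (ha : a ∈ W.gr X (2 * X.dim - q)) (hq : q ≤ 2 * X.dim)
    (S : Set (W.H X)) (hS : ∀ b ∈ W.gr X q, b ∈ Submodule.span W.K S)
    (h : ∀ b ∈ S, W.tr X (a * b) = 0) : a = 0 := by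
  apply W.nondeg
  intro b
  refine gr_induction (W.isInternal X) (p := fun b => W.tr X (a * b) = 0) ?_ ?_ b
  · intro j b hb
    by_cases hj : j = q
    · subst hj
      have := hS b hb
      clear hb
      induction this using Submodule.span_induction with
      | mem b hb => exact h b hb
      | zero => rw [mul_zero, map_zero]
      | add b b' _ _ hb hb' => rw [mul_add, map_add, hb, hb', add_zero]
      | smul c b _ hb => rw [mul_smul_comm, map_smul, hb, smul_zero]
    · exact W.tr_eq_zero (W.mul_mem ha hb) (by omega)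
  · intro b b' hb hb'
    rw [mul_add, map_add, hb, hb', add_zero]

/-- Dual families of algebraic classes. -/
lemma dual_pair {p : ℕ} (hp : p ≤ X.dim) (h1 : SpannedByCycles W X (2 * p))
    (h2 : SpannedByCycles W X (2 * X.dim - 2 * p)) :
    ∃ (m : ℕ) (z y : Fin m → C.CH X), (∀ i, z i ∈ C.gr X p) ∧ (∀ i, y i ∈ C.gr X (X.dim - p)) ∧
      (∀ i j, C.deg X (z i * y j) = if i = j then 1 else 0) ∧
      ∀ a ∈ W.gr X (2 * p), a ∈ Submodule.span W.K (Set.range fun i => W.cl X (z i)) := by
  classical
  have : Module.Finite W.K (W.H X) := (W.isPoincareAlgebra X).finite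
  set S : Set (W.H X) := {b | ∃ q, 2 * q = 2 * p ∧ ∃ z ∈ C.gr X q, W.cl X z = b} with hS
  set S' : Set (W.H X) := {b | ∃ q, 2 * q = 2 * X.dim - 2 * p ∧ ∃ z ∈ C.gr X q, W.cl X z = b}
    with hS'
  obtain ⟨T, hTS, hTspan, hTli⟩ := exists_linearIndependent W.K S
  obtain ⟨T', hTS', hTspan', hTli'⟩ := exists_linearIndependent W.K S'
  have hfin : T.Finite := hTli.setFinite
  have hfin' : T'.Finite := hTli'.setFinite
  have := hfin.fintype
  have := hfin'.fintype
  set e := Fintype.equivFin T with he
  set e' := Fintype.equivFin T' with he'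
  have hzT : ∀ i, ∃ z ∈ C.gr X p, W.cl X z = (e.symm i : W.H X) := by
    intro i
    obtain ⟨q, hq, z, hz, hz'⟩ := hTS (e.symm i).2
    have : q = p := by omega
    subst this
    exact ⟨z, hz, hz'⟩
  have hwT : ∀ i, ∃ z ∈ C.gr X (X.dim - p), W.cl X z = (e'.symm i : W.H X) := by
    intro i
    obtain ⟨q, hq, z, hz, hz'⟩ := hTS' (e'.symm i).2
    have : q = X.dim - p := by omega
    subst this
    exact ⟨z, hz, hz'⟩
  choose z hz hz' using hzT
  choose y hy hy' using hwT
  have hli : LinearIndependent W.K (fun i => W.cl X (z i)) := by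
    have h3 : (fun i => W.cl X (z i)) = fun i => (e.symm i : W.H X) := funext hz'
    rw [h3]
    exact hTli.comp _ e.symm.injective
  have hspan : Submodule.span W.K (Set.range fun i => W.cl X (z i)) = Submodule.span W.K S := by
    rw [← hTspan]
    congr 1
    ext v
    constructor
    · rintro ⟨i, rfl⟩
      show W.cl X (z i) ∈ T
      rw [hz']; exact (e.symm i).2
    · intro hv; exact ⟨e ⟨v, hv⟩, by simp [hz']⟩
  have hspan' : Submodule.span W.K (Set.range fun i => W.cl X (y i)) =
      Submodule.span W.K S' := by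
    rw [← hTspan']
    congr 1
    ext v
    constructor
    · rintro ⟨i, rfl⟩
      show W.cl X (y i) ∈ T'
      rw [hy']; exact (e'.symm i).2
    · intro hv; exact ⟨e' ⟨v, hv⟩, by simp [hy']⟩
  set M : Matrix (Fin (Fintype.card T)) (Fin (Fintype.card T')) ℚ :=
    Matrix.of (fun i j => C.deg X (z i * y j)) with hM
  obtain ⟨N, hN⟩ := exists_right_inverse M (by
    intro v hv
    have h3 : ∑ i, (v i : W.K) • W.cl X (z i) = 0 := by
      have h4 : ∑ i, (v i : W.K) • W.cl X (z i) = W.cl X (∑ i, v i • z i) := by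
        rw [cl_sum]
        exact Finset.sum_congr rfl fun i _ => (W.cl_smul _ _).symm
      have h5 : ∑ i, v i • z i ∈ C.gr X p :=
        Submodule.sum_mem _ fun i _ => Submodule.smul_mem _ _ (hz i)
      rw [h4]
      refine eq_zero_of_orth (q := 2 * X.dim - 2 * p) ?_ (by omega)
        (Set.range fun i => W.cl X (y i)) ?_ ?_
      · have := W.cl_mem h5
        rwa [show 2 * X.dim - (2 * X.dim - 2 * p) = 2 * p by omega]
      · intro b hb
        rw [hspan']
        exact h2 b hb
      · rintro _ ⟨j, rfl⟩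
        rw [← deg_cast]
        have h6 := congrFun hv j
        rw [Matrix.vecMul, dotProduct, Pi.zero_apply] at h6
        have h7 : C.deg X ((∑ i, v i • z i) * y j) = ∑ i, v i * M i j := by
          rw [Finset.sum_mul, map_sum]
          refine Finset.sum_congr rfl fun i _ => ?_
          rw [smul_mul_assoc, map_smul, smul_eq_mul]
          rfl
        rw [h7]
        have h8 : ∑ i, v i * M i j = 0 := h6
        rw [h8, Rat.cast_zero]
    have h9 := Fintype.linearIndependent_iff.1 hli _ h3
    funext i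
    have := h9 i
    exact_mod_cast this)
  refine ⟨_, z, fun l => ∑ j, N j l • y j, hz, fun l => Submodule.sum_mem _ fun j _ =>
    Submodule.smul_mem _ _ (hy j), ?_, ?_⟩
  · intro i l
    have h3 := congrFun (congrFun hN i) l
    rw [Matrix.mul_apply, Matrix.one_apply] at h3
    rw [← h3, Finset.mul_sum, map_sum]
    refine Finset.sum_congr rfl fun j _ => ?_
    rw [mul_smul_comm, map_smul, smul_eq_mul, mul_comm]
    rfl
  · intro a ha
    rw [hspan]
    exact h1 a ha

/-! ### correspondences given by products of classes -/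

lemma comp_ext_right (x : C.CH X) (y : C.CH Y) (γ : C.CH (Y.prod Y)) :
    C.comp (C.ext x y) γ = C.ext x (C.act γ y) := by
  rw [← C.act_opL, C.act_opL_ext]

lemma act_extH {x y : C.CH X} {p q : ℕ} (hx : x ∈ C.gr X p) (hy : y ∈ C.gr X q) (a : W.H X) :
    W.act (C.ext x y) a = W.tr X (a * W.cl X x) • W.cl X y := by
  have hx' := W.cl_mem hx
  have hy' := W.cl_mem hy
  rw [WeilTheory.act_apply, ChowTheory.ext, W.cl_mul, W.cl_pull, W.cl_pull, mul_assoc,
    W.even_comm (W.map_mem (snd X X) hy'), ← mul_assoc, ← W.map_mul', W.even_comm hx',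
    W.push_snd]

lemma comp_sub (α : C.CH (X.prod X)) (β γ : C.CH (X.prod X)) :
    C.comp α (β - γ) = C.comp α β - C.comp α γ := by
  simp [ChowTheory.comp, mul_sub]

lemma sub_comp (α β : C.CH (X.prod X)) (γ : C.CH (X.prod X)) :
    C.comp (α - β) γ = C.comp α γ - C.comp β γ := by
  simp [ChowTheory.comp, sub_mul]

lemma ext_zero (x : C.CH X) : C.ext x (0 : C.CH Y) = 0 := by
  simp [ChowTheory.ext]

end Pool.Agent.H60MC
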