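import Pool.Agent.R903.Murre

/-!
# Independence of the Chow–Künneth filtration implies functoriality for self-correspondences
-/

open CategoryTheory CategoryTheory.Limits AlgebraicGeometry
open Pool.Agent.H914 Pool.Agent.H914.VarClass Pool.Agent.H914.VarClass.Obj Pool.Agent.R903

universe u v w

namespace Pool.Agent.H60MC

variable {k : Type u} [Field k] {𝒱 : VarClass k} {C : ChowTheory.{u, v} 𝒱}
  {W : WeilTheory.{u, v, w} C} {X Y : 𝒱.Obj}

/-- A projector onto the graded piece `b` takes values in this piece. -/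
lemma projector_mem {b : ℕ} {T : W.H X →ₗ[W.K] W.H X} (hT : IsProjector (W.gr X) b T)
    (y : W.H X) : T y ∈ W.gr X b := by
  refine gr_induction (W.isInternal X) (p := fun y => T y ∈ W.gr X b) ?_ ?_ y
  · intro j y hy
    rw [hT j y hy]
    split_ifs with h
    · rw [← h]; exact hy
    · exact Submodule.zero_mem _
  · intro y y' h h'
    rw [map_add]
    exact Submodule.add_mem _ h h'

lemma tr_projector {b m : ℕ} (hbm : b + m = 2 * X.dim) {T : W.H X →ₗ[W.K] W.H X}
    (hT : IsProjector (W.gr X) b T) {c : W.H X} (hc : c ∈ W.gr X m) (y : W.H X) :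
    W.tr X (T y * c) = W.tr X (y * c) := by
  refine gr_induction (W.isInternal X) (p := fun y => W.tr X (T y * c) = W.tr X (y * c)) ?_ ?_ y
  · intro j y hy
    rw [hT j y hy]
    split_ifs with h
    · rfl
    · rw [zero_mul, map_zero, W.tr_eq_zero (W.mul_mem hy hc) (by omega)]
  · intro y y' h h'
    rw [map_add, add_mul, add_mul, map_add, map_add, h, h']

/-- A correspondence of degree zero preserves the degrees in cohomology. -/
lemma projector_act {a b : ℕ} (hab : a ≠ b) {T : W.H X →ₗ[W.K] W.H X}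
    (hT : IsProjector (W.gr X) b T) {γ : C.CH (X.prod X)} (hγ : γ ∈ C.gr (X.prod X) X.dim)
    {z : W.H X} (hz : z ∈ W.gr X a) : T (W.act γ z) = 0 := by
  apply W.nondeg
  intro c
  refine gr_induction (W.isInternal X) (p := fun c => W.tr X (T (W.act γ z) * c) = 0) ?_ ?_ c
  · intro m c hc
    by_cases hbm : b + m = 2 * X.dim
    · rw [tr_projector hbm hT hc, WeilTheory.act_apply, W.tr_push]
      refine W.tr_eq_zero (W.mul_mem (W.mul_mem (W.cl_mem hγ) (W.map_mem _ hz))
        (W.map_mem _ hc)) ?_
      rw [dim_prod]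
      omega
    · exact W.tr_eq_zero (W.mul_mem (projector_mem hT _) hc) hbm
  · intro c c' h h'
    rw [mul_add, map_add, h, h', add_zero]

/-- The blocks off the diagonal are homologically trivial. -/
lemma act_block {π π' : ℕ → C.CH (X.prod X)} (h : W.IsCK X π) (h' : W.IsCK X π') {a b : ℕ}
    (hab : a ≠ b) {γ : C.CH (X.prod X)} (hγ : γ ∈ C.gr (X.prod X) X.dim) :
    W.act (C.comp (C.comp (π a) γ) (π' b)) = 0 := by
  apply gr_ext (W.isInternal X)
  intro j z hz
  rw [W.act_comp _ (h'.mem b), W.act_comp _ hγ, h.proj a j z hz, LinearMap.zero_apply]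
  split_ifs with hj
  · subst hj
    exact projector_act hab (h'.proj b) hγ hz
  · rw [map_zero, map_zero]

/-- If the filtration is independent of the decomposition, then the components of a correspondence
which raise the cohomological degree act as zero. -/
theorem block_zero (hC : W.MurreC X) {π : ℕ → C.CH (X.prod X)} (h : W.IsCK X π) {a b i : ℕ}
    (hab : a < b) (hai : a ≤ 2 * i) {γ : C.CH (X.prod X)} (hγ : γ ∈ C.gr (X.prod X) X.dim)
    {x : C.CH X} (hx : x ∈ C.gr X i) :
    C.act (π b) (C.act γ (C.act (π a) x)) = 0 := by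
  by_cases hb : 2 * X.dim < b
  · rw [h.eq_zero hb, C.act_zero, LinearMap.zero_apply]
  set φ := C.comp (C.comp (π a) γ) (π b) with hφ
  have hφgr : φ ∈ C.gr (X.prod X) X.dim := C.comp_mem (C.comp_mem (h.mem a) hγ rfl) (h.mem b) rfl
  have hφ0 : W.act φ = 0 := act_block h h (by omega) hγ
  have hs : C.comp (π a) φ = φ := by rw [hφ, ← C.comp_assoc, ← C.comp_assoc, h.idem]
  have ht : C.comp φ (π b) = φ := by rw [hφ, C.comp_assoc, h.idem]
  have hCK := h.shift hφgr hφ0 (s := a) (t := b) (by omega) hs ht (by omega) (by omega)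
  have hact : ∀ y, C.act φ y = C.act (π b) (C.act γ (C.act (π a) y)) := fun y => by
    rw [hφ, C.act_comp, C.act_comp]
  have hmem : C.act (WeilTheory.shiftCK π φ a b a) x ∈ C.ckFil π i (2 * i - a) := by
    rw [hC i (2 * i - a) π _ h hCK, WeilTheory.mem_ckFil hCK]
    refine ⟨C.act_mem (hCK.mem _) hx rfl, fun c hc => ?_⟩
    rw [hCK.act_act, if_neg (by omega)]
  have h2 := ((WeilTheory.mem_ckFil h).1 hmem).2 b (by omega)
  rw [WeilTheory.shiftCK, if_pos rfl, if_neg (by omega), sub_zero, one_smul, C.act_add,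
    LinearMap.add_apply, map_add, h.act_act, if_neg (by omega), zero_add, hact, h.act_act,
    if_pos rfl] at h2
  exact h2

/-- **Independence implies functoriality for the self-correspondences of `X`.** -/
theorem functorial (hC : W.MurreC X) {π π' : ℕ → C.CH (X.prod X)} (h : W.IsCK X π)
    (h' : W.IsCK X π') {γ : C.CH (X.prod X)} (hγ : γ ∈ C.gr (X.prod X) X.dim) {i l : ℕ}
    {x : C.CH X} (hx : x ∈ C.ckFil π i l) : C.act γ x ∈ C.ckFil π' i l := by
  rw [← hC i l π π' h h', WeilTheory.mem_ckFil h]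
  rw [WeilTheory.mem_ckFil h] at hx
  refine ⟨C.act_mem hγ hx.1 rfl, fun b hb => ?_⟩
  rw [← h.sum_act x, map_sum, map_sum]
  refine Finset.sum_eq_zero fun a _ => ?_
  by_cases ha : 2 * i < a + l
  · rw [hx.2 a ha, map_zero, map_zero]
  · exact block_zero hC h (by omega) (by omega) hγ hx.1

end Pool.Agent.H60MC
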