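import Pool.Agent.H60MC.Fun

/-!
# Independence of `F^l CH^i(X)` for one pair `(i, l)` and the self-correspondences of `X`
-/

open CategoryTheory CategoryTheory.Limits AlgebraicGeometry
open Pool.Agent.H914 Pool.Agent.H914.VarClass Pool.Agent.H914.VarClass.Obj Pool.Agent.R903

universe u v w

namespace Pool.Agent.H60MC

variable {k : Type u} [Field k] {𝒱 : VarClass k} {C : ChowTheory.{u, v} 𝒱}
  {W : WeilTheory.{u, v, w} C} {X Y : 𝒱.Obj}

/-- If `F^l CH^i(X)` is independent of the decomposition, then the components of a correspondence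
from a degree `a ≤ 2i - l` to a degree `b > 2i - l` act as zero on `CH^i(X)`. -/
theorem block_zero_one {i l : ℕ} (hI : W.Indep X i l) {π : ℕ → C.CH (X.prod X)} (h : W.IsCK X π)
    {a b : ℕ} (ha : a + l ≤ 2 * i) (hb : 2 * i < b + l) {γ : C.CH (X.prod X)}
    (hγ : γ ∈ C.gr (X.prod X) X.dim) {x : C.CH X} (hx : x ∈ C.gr X i) :
    C.act (π b) (C.act γ (C.act (π a) x)) = 0 := by
  by_cases hb' : 2 * X.dim < b
  · rw [h.eq_zero hb', C.act_zero, LinearMap.zero_apply]
  set φ := C.comp (C.comp (π a) γ) (π b) with hφ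
  have hφgr : φ ∈ C.gr (X.prod X) X.dim := C.comp_mem (C.comp_mem (h.mem a) hγ rfl) (h.mem b) rfl
  have hφ0 : W.act φ = 0 := act_block h h (by omega) hγ
  have hs : C.comp (π a) φ = φ := by rw [hφ, ← C.comp_assoc, ← C.comp_assoc, h.idem]
  have ht : C.comp φ (π b) = φ := by rw [hφ, C.comp_assoc, h.idem]
  have hCK := h.shift hφgr hφ0 (s := a) (t := b) (by omega) hs ht (by omega) (by omega)
  have hact : ∀ y, C.act φ y = C.act (π b) (C.act γ (C.act (π a) y)) := fun y => by
    rw [hφ, C.act_comp, C.act_comp]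
  have hmem : C.act (WeilTheory.shiftCK π φ a b a) x ∈ C.ckFil π i l := by
    rw [hI π _ h hCK, WeilTheory.mem_ckFil hCK]
    refine ⟨C.act_mem (hCK.mem _) hx rfl, fun c hc => ?_⟩
    rw [hCK.act_act, if_neg (by omega)]
  have h2 := ((WeilTheory.mem_ckFil h).1 hmem).2 b hb
  rw [WeilTheory.shiftCK, if_pos rfl, if_neg (by omega), sub_zero, one_smul, C.act_add,
    LinearMap.add_apply, map_add, h.act_act, if_neg (by omega), zero_add, hact, h.act_act,
    if_pos rfl] at h2
  exact h2

/-- **`F^l CH^i(X)` is independent of the Chow–Künneth decomposition if and only if it is respected by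
all correspondences of degree zero from `X` to `X`.** -/
theorem indep_iff_respected (i l : ℕ) : W.Indep X i l ↔
    ∀ π π' : ℕ → C.CH (X.prod X), W.IsCK X π → W.IsCK X π' → ∀ γ ∈ C.gr (X.prod X) X.dim,
      ∀ x ∈ C.ckFil π i l, C.act γ x ∈ C.ckFil π' i l := by
  constructor
  · intro hI π π' h h' γ hγ x hx
    rw [← hI π π' h h', WeilTheory.mem_ckFil h]
    rw [WeilTheory.mem_ckFil h] at hx
    refine ⟨C.act_mem hγ hx.1 rfl, fun b hb => ?_⟩
    rw [← h.sum_act x, map_sum, map_sum]
    refine Finset.sum_eq_zero fun a _ => ?_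
    by_cases ha : 2 * i < a + l
    · rw [hx.2 a ha, map_zero, map_zero]
    · exact block_zero_one hI h (by omega) hb hγ hx.1
  · intro H π π' h h'
    refine le_antisymm (fun x hx => ?_) (fun x hx => ?_)
    · have := H π π' h h' _ (C.diagC_mem X) x hx
      rwa [C.act_diagC] at this
    · have := H π' π h' h _ (C.diagC_mem X) x hx
      rwa [C.act_diagC] at this

end Pool.Agent.H60MC
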