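import Pool.Agent.H60MC.Deg

/-!
# Independence of the Chow–Künneth filtration and direct summands of motives
-/

open CategoryTheory CategoryTheory.Limits AlgebraicGeometry
open Pool.Agent.H914 Pool.Agent.H914.VarClass Pool.Agent.H914.VarClass.Obj Pool.Agent.R903

universe u v w

namespace Pool.Agent.H60MC

variable {k : Type u} [Field k] {𝒱 : VarClass k} {C : ChowTheory.{u, v} 𝒱}
  {W : WeilTheory.{u, v, w} C} {X Y : 𝒱.Obj}

lemma KillsChow.trivialStep {π : ℕ → C.CH (X.prod X)} (hπ : W.IsCK X π) {c i : ℕ}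
    (key : KillsChow W X π c i) : TrivialStep W X π c i := by
  refine ⟨fun m hm hc => ?_, fun hc x => ?_⟩
  · ext x
    rw [WeilTheory.mem_ckFil hπ, WeilTheory.mem_ckFil hπ]
    refine ⟨fun hx => ⟨hx.1, fun b hb => ?_⟩, fun hx => ⟨hx.1, fun b hb => hx.2 b (by omega)⟩⟩
    by_cases hbc : b = c
    · rw [hbc]
      exact key x hx.1 (Or.inl (by omega))
    · exact hx.2 b (by omega)
  · rw [WeilTheory.mem_ckFil hπ, WeilTheory.mem_ckFil hπ]
    constructor
    · rintro ⟨hx, h3⟩
      refine ⟨⟨hx, fun b hb => h3 b (by omega)⟩, ?_⟩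
      have h4 : W.cl X (C.act (π (2 * i)) x) = W.cl X x := by
        rw [W.cl_act, hπ.proj _ _ _ (W.cl_mem hx), if_pos rfl]
      rw [← h4, h3 (2 * i) (by omega), map_zero]
    · rintro ⟨⟨hx, h3⟩, h4⟩
      refine ⟨hx, fun b hb => ?_⟩
      by_cases hbc : b = c
      · rw [hbc]
        exact key x hx (Or.inr h4)
      · exact h3 b (by omega)

theorem summand {i l : ℕ} (hl : l ≤ 2 * i) (hil : 2 * i < 2 * X.dim + l) (hI : W.Indep X i l)
    {π : ℕ → C.CH (X.prod X)} (h : W.IsCK X π) {c : ℕ} {q : C.CH (Y.prod Y)}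
    (hdet' : EndDetected W Y q)
    {m n : ℕ} (hmn : m + n = X.dim + Y.dim) (hc : CohSummand W X c q m n) :
    ChowSummand C (π c) i q m n := by
  obtain ⟨α, hα, β, hβ, hid⟩ := hc
  obtain ⟨hq, hqq, hdet⟩ := hdet'
  set α' := C.comp (C.comp (π c) α) q with hα'
  set β' := C.comp (C.comp q β) (π c) with hβ'
  have hπα : C.comp (π c) α ∈ C.gr (X.prod Y) m := C.comp_mem (h.mem c) hα (add_comm _ _)
  have hαq : C.comp α q ∈ C.gr (X.prod Y) m := C.comp_mem hα hq rfl
  have hα'm : α' ∈ C.gr (X.prod Y) m := C.comp_mem hπα hq rfl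
  have hqβ : C.comp q β ∈ C.gr (Y.prod X) n := C.comp_mem hq hβ (add_comm _ _)
  have hβ'm : β' ∈ C.gr (Y.prod X) n := C.comp_mem hqβ (h.mem c) rfl
  have hα'1 : C.comp (π c) α' = α' := by
    rw [hα', ← C.comp_assoc, ← C.comp_assoc, h.idem]
  have hα'2 : C.comp α' q = α' := by rw [hα', C.comp_assoc, hqq]
  have hβ'1 : C.comp q β' = β' := by rw [hβ', ← C.comp_assoc, ← C.comp_assoc, hqq]
  have hβ'2 : C.comp β' (π c) = β' := by rw [hβ', C.comp_assoc, h.idem]
  set u := C.comp α' β' with hu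
  have hum : u ∈ C.gr (X.prod X) X.dim := C.comp_mem hα'm hβ'm hmn
  have hu1 : C.comp (π c) u = u := by rw [hu, ← C.comp_assoc, hα'1]
  have hu2 : C.comp u (π c) = u := by rw [hu, C.comp_assoc, hβ'2]
  set f := C.comp β' α' with hf
  have hfm : f ∈ C.gr (Y.prod Y) Y.dim := C.comp_mem hβ'm hα'm (by omega)
  have hf1 : C.comp q f = f := by rw [hf, ← C.comp_assoc, hβ'1]
  have hf2 : C.comp f q = f := by rw [hf, C.comp_assoc, hα'2]
  -- the action of `u` on the cohomology
  have huW : ∀ a ∈ W.gr X c, W.act u a = a := by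
    intro a ha
    have h1 := hid a ha
    rw [W.act_comp _ hβ, W.act_comp _ hq] at h1
    rw [hu, W.act_comp _ hβ'm, hα', W.act_comp _ hq, W.act_comp _ hα, h.proj c c a ha, if_pos rfl,
      hβ', W.act_comp _ (h.mem c), W.act_comp _ hβ, ← W.act_comp _ hq, hqq, h1,
      h.proj c c a ha, if_pos rfl]
  have huW' : W.act u = W.act (π c) := by
    apply gr_ext (W.isInternal X)
    intro j a ha
    rw [h.proj c j a ha]
    split_ifs with hj
    · subst hj; exact huW a ha
    · rw [← hu1, W.act_comp _ hum, h.proj c j a ha, if_neg hj, map_zero]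
  -- `f` is idempotent
  have hff : C.comp f f = f := by
    have h2 : W.act (C.comp f f) = W.act f := by
      ext b
      have h3 : C.comp f f = C.comp (C.comp β' u) α' := by
        simp only [hf, hu, C.comp_assoc]
      rw [h3, W.act_comp _ hα'm, W.act_comp _ hum, hf, W.act_comp _ hα'm, huW]
      rw [← hβ'2, W.act_comp _ (h.mem c)]
      exact projector_mem (h.proj c) _
    have h4 : C.comp (C.comp q (C.comp f f - f)) q = C.comp f f - f := by
      rw [comp_sub, sub_comp, ← C.comp_assoc, hf1, hf2, C.comp_assoc, hf2]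
    have h5 := hdet (C.comp f f - f) ⟨Submodule.sub_mem _ (C.comp_mem hfm hfm rfl) hfm, h4⟩
      (fun a => by rw [W.act_sub, h2, sub_self, LinearMap.zero_apply])
    exact sub_eq_zero.1 h5
  have huuu : C.comp (C.comp u u) u = C.comp u u := by
    have h2 : C.comp (C.comp u u) u = C.comp α' (C.comp (C.comp f f) β') := by
      simp only [hu, hf, C.comp_assoc]
    have h3 : C.comp u u = C.comp α' (C.comp f β') := by
      simp only [hu, hf, C.comp_assoc]
    rw [h2, hff, h3]
  set g := C.comp u u with hg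
  have hgm : g ∈ C.gr (X.prod X) X.dim := C.comp_mem hum hum rfl
  have hgg : C.comp g g = g := by
    conv_lhs => rw [hg]
    rw [← hg]
    conv_lhs => rw [hg]
    rw [← C.comp_assoc]
    rw [← hg, huuu, huuu]
  have hπg : C.comp (π c) g = g := by rw [hg, ← C.comp_assoc, hu1]
  have hgπ : C.comp g (π c) = g := by rw [hg, C.comp_assoc, hu2]
  have hgW : W.act g = W.act (π c) := by
    ext a
    rw [hg, W.act_comp _ hum, huW', ← W.act_comp _ (h.mem c), h.idem]
  set e := π c - g with he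
  have hem : e ∈ C.gr (X.prod X) X.dim := Submodule.sub_mem _ (h.mem _) hgm
  have heW : W.act e = 0 := by rw [he, W.act_sub, hgW, sub_self]
  have hπe : C.comp (π c) e = e := by rw [he, comp_sub, h.idem, hπg]
  have heπ : C.comp e (π c) = e := by rw [he, sub_comp, h.idem, hgπ]
  have hee : C.comp e e = e := by
    conv_lhs => rw [he]
    rw [sub_comp, ← he, hπe, he, comp_sub, hgπ, hgg, sub_self, sub_zero]
  refine ⟨α', C.comp β' u, ⟨hα'm, ?_⟩, ⟨C.comp_mem hβ'm hum rfl, ?_⟩, fun x hx => ?_⟩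
  · rw [hα'1, hα'2]
  · rw [← C.comp_assoc, hβ'1, C.comp_assoc, hu2]
  · have key := phantom hl hil hI h hem heW hee hπe heπ hx
    rw [he, C.act_sub, LinearMap.sub_apply, sub_eq_zero] at key
    rw [key, hg, ← C.comp_assoc, ← hu]

end Pool.Agent.H60MC
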